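import Mathlib

namespace Pool.Agent.Results.MP_3b52ff_co.Hider

/-- the pair asked at turn `n` by the strategy `σ` when the answers are `a` -/
def ask (σ : List Bool → Sym2 ℕ) (a : ℕ → Bool) (n : ℕ) : Sym2 ℕ :=
  σ (List.ofFn fun i : Fin n => a i)

/-- every vertex has degree at least `k` -/
def MinDeg (k : ℕ) (H : Set (Sym2 ℕ)) : Prop := ∀ v, (k : ℕ∞) ≤ {u | s(v, u) ∈ H}.encard

def green (q : ℕ → Sym2 ℕ) (a : ℕ → Bool) : Set (Sym2 ℕ) := {e | ∃ n, q n = e ∧ a n = true}

def white (q : ℕ → Sym2 ℕ) : Set (Sym2 ℕ) := {e | ¬ e.IsDiag ∧ ∀ n, q n ≠ e}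

/-- Seeker wins the run with questions `q` and answers `a` -/
def SeekerWins (k : ℕ) (q : ℕ → Sym2 ℕ) (a : ℕ → Bool) : Prop :=
  (white q).Nonempty ∧
    ((∀ H, green q a ⊆ H → H ⊆ green q a ∪ white q → MinDeg k H) ∨
     (∀ H, green q a ⊆ H → H ⊆ green q a ∪ white q → ¬ MinDeg k H))

open Classical Finset

noncomputable def gs (q : ℕ → Sym2 ℕ) (a : ℕ → Bool) (n w : ℕ) : Finset ℕ :=
  (range n).filter fun i => a i = true ∧ w ∈ q i

noncomputable def ds (q : ℕ → Sym2 ℕ) (n w : ℕ) : Finset ℕ :=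
  (range w).filter fun u => ∀ i < n, q i ≠ s(u, w)

def Want (k : ℕ) (q : ℕ → Sym2 ℕ) (a : ℕ → Bool) (n : ℕ) : Prop :=
  ∃ w y, q n = s(w, y) ∧ w < y ∧ y.unpair.1 = w ∧
    #(gs q a n w) + min 2 #(ds q n w) < k

lemma ask_congr (σ : List Bool → Sym2 ℕ) {a b : ℕ → Bool} {n : ℕ} (h : ∀ i < n, a i = b i) :
    ask σ a n = ask σ b n := by
  unfold ask
  congr 2
  funext i
  exact h i i.2

lemma want_congr (k : ℕ) (σ : List Bool → Sym2 ℕ) {a b : ℕ → Bool} {n : ℕ}
    (h : ∀ i < n, a i = b i) : Want k (ask σ a) a n ↔ Want k (ask σ b) b n := by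
  have h1 : ∀ i ≤ n, ask σ a i = ask σ b i := fun i hi =>
    ask_congr σ fun j hj => h j (lt_of_lt_of_le hj hi)
  have h2 : ∀ w, gs (ask σ a) a n w = gs (ask σ b) b n w := by
    intro w
    refine filter_congr fun i hi => ?_
    rw [h i (mem_range.1 hi), h1 i (mem_range.1 hi).le]
  have h3 : ∀ w, ds (ask σ a) n w = ds (ask σ b) n w := by
    intro w
    refine filter_congr fun u _ => ?_
    exact forall₂_congr fun i hi => by rw [h1 i hi.le]
  unfold Want
  simp only [h2, h3, h1 n le_rfl]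

lemma exists_ans (k : ℕ) (σ : List Bool → Sym2 ℕ) :
    ∃ a : ℕ → Bool, ∀ n, a n = true ↔ Want k (ask σ a) a n := by
  let F : (n : ℕ) → ((m : ℕ) → m < n → Bool) → Bool := fun n f =>
    decide (Want k (ask σ fun i => if h : i < n then f i h else false)
      (fun i => if h : i < n then f i h else false) n)
  let a : ℕ → Bool := wellFounded_lt.fix F
  refine ⟨a, fun n => ?_⟩
  have : a n = F n fun m _ => a m := wellFounded_lt.fix_eq F n
  rw [this]
  simp only [F, decide_eq_true_eq]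
  exact want_congr k σ fun i hi => by simp [hi]

lemma ds_mono (q : ℕ → Sym2 ℕ) (n w : ℕ) : ds q (n + 1) w ⊆ ds q n w := by
  intro u hu
  simp only [ds, mem_filter] at hu ⊢
  exact ⟨hu.1, fun i hi => hu.2 i (by omega)⟩

lemma gs_succ (q : ℕ → Sym2 ℕ) (a : ℕ → Bool) (n w : ℕ) :
    #(gs q a (n + 1) w) = #(gs q a n w) + if a n = true ∧ w ∈ q n then 1 else 0 := by
  unfold gs
  rw [range_add_one, filter_insert]
  split_ifs with h
  · rw [card_insert_of_notMem (by simp)]
  · rfl

lemma inv {k : ℕ} (hk : 2 ≤ k) {q : ℕ → Sym2 ℕ} {a : ℕ → Bool} (hq : Function.Injective q)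
    (ha : ∀ n, a n = true ↔ Want k q a n) (y n : ℕ) :
    ((∀ i < n, q i ≠ s(y.unpair.1, y)) → #(gs q a n y) + min 2 #(ds q n y) ≤ k) ∧
    (1 ≤ #(ds q n y) → #(gs q a n y) + 1 ≤ k) := by
  induction n with
  | zero =>
    have : #(gs q a 0 y) = 0 := by simp [gs]
    omega
  | succ n ih =>
    have h1 := card_le_card (ds_mono q n y)
    rw [gs_succ]
    split_ifs with h
    · obtain ⟨w, z, e, hwz, hp, hlt⟩ := (ha n).1 h.1
      have hy := h.2
      rw [e, Sym2.mem_iff] at hy
      rcases hy with rfl | rfl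
      · omega
      · refine ⟨fun g => absurd (by rw [e, hp]) (g n (by omega)), fun g => ?_⟩
        have h2 : ∀ i < n, q i ≠ s(y.unpair.1, y) := by
          intro i hi g2
          have : i = n := hq (by rw [g2, e, hp])
          omega
        have h3 := ih.1 h2
        have h4 : insert w (ds q (n + 1) y) ⊆ ds q n y := by
          refine insert_subset ?_ (ds_mono q n y)
          simp only [ds, mem_filter, mem_range]
          exact ⟨hwz, by rwa [hp] at h2⟩
        have h5 : w ∉ ds q (n + 1) y := by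
          simp only [ds, mem_filter, not_and]
          exact fun _ g2 => g2 n (by omega) e
        have h6 := card_le_card h4
        rw [card_insert_of_notMem h5] at h6
        omega
    · refine ⟨fun g => ?_, fun g => ?_⟩
      · have := ih.1 fun i hi => g i (by omega)
        omega
      · have := ih.2 (by omega)
        omega

lemma not_green {k : ℕ} (hk : 2 ≤ k) {q : ℕ → Sym2 ℕ} {a : ℕ → Bool} (hq : Function.Injective q)
    (ha : ∀ n, a n = true ↔ Want k q a n) (hw : (white q).Nonempty) : ¬ MinDeg k (green q a) := by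
  obtain ⟨u, b, hub, hw⟩ : ∃ u b, u < b ∧ ∀ n, q n ≠ s(u, b) := by
    obtain ⟨e, h1, h2⟩ := hw
    induction e using Sym2.ind with
    | h x y =>
      rw [Sym2.mk_isDiag_iff] at h1
      rcases lt_or_gt_of_ne h1 with h | h
      · exact ⟨x, y, h, h2⟩
      · exact ⟨y, x, h, by rwa [Sym2.eq_swap]⟩
  intro h
  obtain ⟨t, ht, hc⟩ := Set.exists_subset_encard_eq (h b)
  have hf : t.Finite := Set.finite_of_encard_eq_coe hc
  have : ∀ x ∈ t, ∃ n, q n = s(b, x) ∧ a n = true := fun x hx => ht hx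
  choose! f hf1 using this
  obtain ⟨n, hn⟩ := (hf.image f).bddAbove
  have h1 : hf.toFinset.card ≤ #(gs q a (n + 1) b) := by
    refine card_le_card_of_injOn f ?_ ?_
    · intro x hx
      have hx : x ∈ t := by simpa using hx
      have := hn ⟨x, hx, rfl⟩
      simp only [gs, coe_filter, mem_range, Set.mem_ofPred_eq]
      exact ⟨by omega, (hf1 x hx).2, by rw [(hf1 x hx).1]; simp⟩
    · intro x hx y hy e
      have hx : x ∈ t := by simpa using hx
      have hy : y ∈ t := by simpa using hy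
      have := (hf1 x hx).1.symm.trans (e ▸ (hf1 y hy).1)
      exact Sym2.congr_right.1 this
  have h2 : hf.toFinset.card = k := by
    have := hf.encard_eq_coe_toFinset_card
    rw [hc] at this
    exact_mod_cast this.symm
  have h3 := (inv hk hq ha b (n + 1)).2 (card_pos.2 ⟨u, by
    simp only [ds, mem_filter, mem_range]
    exact ⟨hub, fun i _ => hw i⟩⟩)
  omega

lemma full {k : ℕ} {q : ℕ → Sym2 ℕ} {a : ℕ → Bool} (hq : Function.Injective q)
    (ha : ∀ n, a n = true ↔ Want k q a n) : MinDeg k (green q a ∪ white q) := by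
  intro w
  by_contra h
  rw [not_le] at h
  set N := {u | s(w, u) ∈ green q a ∪ white q} with hN
  have hf : N.Finite := Set.finite_of_encard_le_coe h.le
  have h2 : hf.toFinset.card < k := by
    rw [hf.encard_eq_coe_toFinset_card] at h
    exact_mod_cast h
  obtain ⟨m, hm⟩ : ∃ m, ∀ u < w, ∀ i, q i = s(u, w) → i < m := by
    have : (q ⁻¹' ((fun u => s(u, w)) '' Set.Iio w)).Finite :=
      ((Set.finite_Iio w).image _).preimage hq.injOn
    obtain ⟨m, hm⟩ := this.bddAbove
    exact ⟨m + 1, fun u hu i hi => Nat.lt_succ_of_le (hm ⟨u, hu, hi.symm⟩)⟩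
  have hfin : ((fun y => s(w, y)) ⁻¹' (q '' Set.Iio m)).Finite :=
    ((Set.finite_Iio m).image q).preimage fun x _ y _ e => Sym2.congr_right.1 e
  obtain ⟨M, hM⟩ := (hf.union hfin).bddAbove
  set y := Nat.pair w (M + w + 1) with hy
  have y1 : M + w + 1 ≤ y := Nat.right_le_pair _ _
  have y2 : y ∉ N ∪ (fun y => s(w, y)) ⁻¹' (q '' Set.Iio m) := fun g => by
    have := hM g
    omega
  simp only [Set.mem_union, not_or, hN, Set.mem_ofPred_eq] at y2
  obtain ⟨⟨y3, y4⟩, y5⟩ := y2
  obtain ⟨n, hn⟩ : ∃ n, q n = s(w, y) := by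
    by_contra g
    exact y4 ⟨by rw [Sym2.mk_isDiag_iff]; omega, fun n e => g ⟨n, e⟩⟩
  have n1 : m ≤ n := by
    by_contra g
    exact y5 ⟨n, not_le.1 g, hn⟩
  have n2 : ¬ Want k q a n := fun g => y3 ⟨n, hn, (ha n).2 g⟩
  have n3 : k ≤ #(gs q a n w) + min 2 #(ds q n w) := by
    by_contra g
    exact n2 ⟨w, y, hn, by omega, by simp [hy], not_le.1 g⟩
  have dw : ∀ u ∈ ds q n w, s(w, u) ∈ white q := by
    intro u hu
    simp only [ds, mem_filter, mem_range] at hu
    refine ⟨by rw [Sym2.mk_isDiag_iff]; omega, fun i e => ?_⟩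
    rw [Sym2.eq_swap] at e
    exact hu.2 i (lt_of_lt_of_le (hm u hu.1 i e) n1) e
  have : ∀ i ∈ gs q a n w, ∃ u, q i = s(w, u) ∧ a i = true := by
    intro i hi
    simp only [gs, mem_filter] at hi
    obtain ⟨u, hu⟩ := Sym2.mem_iff_exists.1 hi.2.2
    exact ⟨u, hu, hi.2.1⟩
  choose! f hf1 using this
  have c1 : #((gs q a n w).image f) = #(gs q a n w) := by
    refine card_image_of_injOn fun i hi j hj e => hq ?_
    rw [(hf1 i hi).1, (hf1 j hj).1, e]
  have c2 : Disjoint ((gs q a n w).image f) (ds q n w) := by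
    rw [disjoint_left]
    intro u hu hu2
    obtain ⟨i, hi, rfl⟩ := mem_image.1 hu
    exact (dw _ hu2).2 i (hf1 i hi).1
  have c3 : (gs q a n w).image f ∪ ds q n w ⊆ hf.toFinset := by
    intro u hu
    rw [Set.Finite.mem_toFinset]
    rcases mem_union.1 hu with hu | hu
    · obtain ⟨i, hi, rfl⟩ := mem_image.1 hu
      exact Or.inl ⟨i, hf1 i hi⟩
    · exact Or.inr (dw u hu)
  have c4 := card_le_card c3
  rw [card_union_of_disjoint c2, c1] at c4
  omega

theorem result (k : ℕ) (hk : 2 ≤ k) (σ : List Bool → Sym2 ℕ)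
    (hσ : ∀ a, Function.Injective (ask σ a) ∧ ∀ n, ¬ (ask σ a n).IsDiag) :
    ∃ a, ¬ SeekerWins k (ask σ a) a := by
  obtain ⟨a, ha⟩ := exists_ans k σ
  refine ⟨a, ?_⟩
  rintro ⟨h1, h2 | h2⟩
  · exact not_green hk (hσ a).1 ha h1 (h2 _ subset_rfl Set.subset_union_left)
  · exact h2 _ Set.subset_union_left subset_rfl (full (hσ a).1 ha)

end Pool.Agent.Results.MP_3b52ff_co.Hider
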